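import Pool.Agent.TH826.GA.Final
set_option autoImplicit false

/-!
Beilinson's conjecture on regulators in weight `dim X + 1`, for `i = dim X`: on the hypersurfaces
`λ ∏_e L_e = 1` of degree `m + 1` in projective space of dimension `n + 1`, the `L_e` affine forms
in general position with integral coefficients and unit maximal minors, `p_g = binom(m, n + 1)`
unramified classes in Milnor K-theory with linearly independent regulators, for all large
integers `λ`.
-/

namespace Pool.Agent.TH826.Old.GeneralPositionHypersurfaces

open Pool.Agent.TH826.MK (KQ symb Unramified Torus)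

open Pool.Agent.TH826.GA

/-- Let `1 ≤ n` and `n + 1 ≤ m`, let `σ` be a complex embedding of the number field `K`, and let
`L_e = ∑_j c_{e,j} x_j - a_e`, `0 ≤ e ≤ m`, be affine forms in `n + 1` variables with integral
coefficients in `K`, such that all determinants `det (c_{T_i,j})` of `n + 1` different forms are
units (of the ring of algebraic integers) and no `n + 2` of the forms have a common zero over `K`.
There is a constant `C` such that for all algebraic integers `λ` of `K` with `|σ λ| ≥ C` the
coordinate ring of the `n`-dimensional hypersurface `λ ∏_e L_e = 1` is a domain; the hypersurface is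
smooth (the gradient does not vanish at the complex points over `σ`); for all `n + 2` different
forms `S` the symbol `{u_1, ..., u_{n+1}}`, `u_k = γ_k L_{S_k} / (γ_0 L_{S_0})`, is unramified at all
discrete valuations of the function field, where `γ_k` is `(-1)^k` times the determinant of the
linear parts of the forms `S` without `S_k`; and there are `binom(m, n + 1)` tori of dimension `n`
in the complex points (over `σ`) of the hypersurface, such that the determinant of the regulators on
the tori of the symbols of the `S = (0, t_0, ..., t_n)` with `1 ≤ t_0 < ... < t_n ≤ m` does not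
vanish. -/
theorem result (n : ℕ) (hn : 1 ≤ n) (m : ℕ) (hm : n + 1 ≤ m) (K : Type*) [Field K] [NumberField K]
    (σ : K →+* ℂ) (c : Fin (m + 1) → Fin (n + 1) → K) (a : Fin (m + 1) → K) (hA : Unimod c a)
    (hgen : ∀ S : Fin (n + 2) → Fin (m + 1), Function.Injective S → ∀ x : Fin (n + 1) → K,
      ∃ i, ∑ j, c (S i) j * x j ≠ a (S i)) :
    ∃ C : ℝ, ∀ lam : K, IsIntegral ℤ lam → C ≤ ‖σ lam‖ →
      IsDomain (GRing lam c a) ∧
      (∀ x : Fin (n + 1) → ℂ, MvPolynomial.eval₂ σ x (geqn lam c a) = 0 →
        ∃ j, MvPolynomial.eval₂ σ x (MvPolynomial.pderiv j (geqn lam c a)) ≠ 0) ∧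
      (∀ (L : Type*) [Field L] [Algebra (GRing lam c a) L] [IsFractionRing (GRing lam c a) L],
        ∀ S : Fin (n + 2) → Fin (m + 1), Function.Injective S →
          KQ.map (n + 1) (algebraMap (GRing lam c a) L) (symb (gent lam c a S)) ∈
            Unramified L (n + 1)) ∧
      ∃ Γ : {s : Finset (Fin m) // s.card = n + 1} → Torus (GRing lam c a) n,
        (∀ t θ (x : K), (Γ t).e θ (gcst lam c a x) = σ x) ∧
        (Matrix.of fun t i : {s : Finset (Fin m) // s.card = n + 1} =>
          (Γ t).reg (symb (gent lam c a (splx i)))).det ≠ 0 := by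
  obtain ⟨d, rfl⟩ : ∃ d, n = d + 1 := ⟨n - 1, by omega⟩
  obtain ⟨c1, hc1, h⟩ := exists_tori (a := a) σ hA.det_ne hgen
  obtain ⟨c2, h2⟩ := exists_smooth σ hA.det_ne hgen hm
  refine ⟨max c1 c2, fun lam hlam hl => ?_⟩
  have hl1 : c1 ≤ ‖σ lam‖ := (le_max_left _ _).trans hl
  have hl0 : lam ≠ 0 := by
    intro h0
    rw [h0, map_zero, norm_zero] at hl1
    linarith
  exact ⟨isDomain_GRing hA.det_ne (by omega) hl0, h2 lam ((le_max_right _ _).trans hl),
    fun L _ _ _ S hS => symb_mem_unramified (algebraMap (GRing lam c a) L) hlam hA hS, h lam hl1⟩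

end Pool.Agent.TH826.Old.GeneralPositionHypersurfaces
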