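import Pool.Agent.TH826.UM.SmoothDC
set_option autoImplicit false

/-!
Beilinson's conjecture on regulators, weight `n = d + 1` and degree `i = d`: on the double covers
`z + 1/z = λ ∏_k ∏_i (x_k - a_{k,i})` of products of `d` projective lines, `p_g = ∏_k r_k` integral
classes in Milnor K-theory with linearly independent regulators, with explicit hypotheses which
are uniform in `d`, the `r_k`, the number field and the `a_{k,i}`.
-/

namespace Pool.Agent.TH826.Old.SymbolsDoubleCovers

open Pool.Agent.TH826.MK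

/-- Let `d > 0` and `r_1, ..., r_d`, let `σ` be a complex embedding of the number field `K`, let `λ`
and `a_{k,i}` (`1 ≤ k ≤ d`, `0 ≤ i ≤ r_k`) be algebraic integers of `K`, and let `δ_k > 0` be such
that `|σ a_{k,i} - σ a_{k,j}| ≥ 3 δ_k` for `i ≠ j` and `|σ λ| ∏_k δ_k^(r_k + 1) ≥ 2`. Then the
coordinate ring of the hypersurface `z² - Φ z + 1 = 0`, `Φ = λ ∏_k ∏_i (x_k - a_{k,i})`, is a domain;
the hypersurface is smooth (the partial derivatives `2 z - Φ` and `- z ∂Φ/∂x_k` do not vanish
simultaneously at its complex points over `σ`); the `∏_k r_k` symbols `{z, u_{1,i_1}, ..., u_{d,i_d}}`,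
`u_{k,i} = (x_k - a_{k,i}) / (x_k - a_{k,i+1})`, on an open part of the hypersurface are unramified
at all discrete valuations of the function field; and there are `∏_k r_k` tori in the complex points
(over `σ`) of the open part, such that the determinant of the regulators of the symbols on the tori
does not vanish. -/
theorem result (d : ℕ) (hd : 0 < d) (r : Fin d → ℕ) (K : Type*) [Field K] [NumberField K]
    (σ : K →+* ℂ) (D : Data K r) (hD : D.Integral) (δ : Fin d → ℝ) (hδ : ∀ k, 0 < δ k)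
    (hsep : ∀ k i j, i ≠ j → 3 * δ k ≤ ‖σ (D.a k i) - σ (D.a k j)‖)
    (hlam : 2 ≤ ‖σ D.lam‖ * ∏ k, δ k ^ (r k + 1)) :
    IsDomain (CRing D) ∧
    (∀ (x : Fin d → ℂ) (z : ℂ), z ^ 2 - MvPolynomial.eval₂ σ x (Phi D) * z + 1 = 0 →
      2 * z - MvPolynomial.eval₂ σ x (Phi D) ≠ 0 ∨
      ∃ k, MvPolynomial.eval₂ σ x (MvPolynomial.pderiv k (Phi D)) * z ≠ 0) ∧
    (∀ (L : Type*) [Field L] [Algebra (CRing D) L] [IsFractionRing (CRing D) L],
      ∃ f : ORing D →+* L,
        (∀ b : CRing D, f (toO D b) = algebraMap (CRing D) L b) ∧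
        ∀ i : (∀ k, Fin (r k)),
          KQ.map (d + 1) f (symb (ent D i)) ∈ Unramified L (d + 1)) ∧
    ∃ Γ : (∀ k, Fin (r k)) → Torus (ORing D) d,
      (∀ t θ (x : K), (Γ t).e θ (cO D x) = σ x) ∧
      (Matrix.of fun t i : (∀ k, Fin (r k)) => (Γ t).reg (symb (ent D i))).det ≠ 0 := by
  have hl0 : D.lam ≠ 0 := by
    intro h0
    rw [h0, map_zero, norm_zero, zero_mul] at hlam
    linarith
  refine ⟨isDomain_CRing D hd hl0,
    fun x z hz => Pool.Agent.TH826.UM.smooth_DC hd σ D hδ hsep hlam x z hz, ?_,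
    Pool.Agent.TH826.UM.exists_tori_DC hd hδ hsep hlam⟩
  intro L _ _ _
  have hinj : Function.Injective (algebraMap (CRing D) L) := IsFractionRing.injective _ _
  have hu : IsUnit (algebraMap (CRing D) L (Del D)) := by
    rw [isUnit_iff_ne_zero, Ne, map_eq_zero_iff _ hinj]
    exact Del_ne_zero D hd hl0
  refine ⟨liftO D (algebraMap (CRing D) L) hu.ne_zero, ?_, ?_⟩
  · intro b
    exact liftO_toO _ _ _ _
  · intro i
    exact symb_mem_unramified D _ hD i

end Pool.Agent.TH826.Old.SymbolsDoubleCovers
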